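import Pool.Agent.W275.US.Stm

/-!
US-ANG1: the angular part of the variance in one block.
-/

set_option autoImplicit false

namespace Pool.Agent.W45.US

open MeasureTheory Set
open scoped ENNReal Pointwise
open Pool.Agent.W275.US

variable {d : ℕ}

/-- the ball of radius `s` -/
def Bs (p : Seminorm ℝ (E d)) (s : ℝ) : Set (E d) := {y | p y ≤ s}

theorem Bs_meas (p : Seminorm ℝ (E d)) (s : ℝ) : MeasurableSet (Bs p s) :=
  (isClosed_le (p_cont p) continuous_const).measurableSet

theorem Bs_compact {p : Seminorm ℝ (E d)} (hp : Def p) (s : ℝ) : IsCompact (Bs p s) := by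
  obtain ⟨C, hC0, hC⟩ := norm_le hp
  have h : Bs p s ⊆ Metric.closedBall 0 (C * s) := by
    intro x hx
    have hx1 : p x ≤ s := hx
    rw [mem_closedBall_zero_iff]
    exact (hC x).trans (mul_le_mul_of_nonneg_left hx1 hC0.le)
  exact (isCompact_closedBall 0 (C * s)).of_isClosed_subset
    (isClosed_le (p_cont p) continuous_const) h

theorem Bs_convex (p : Seminorm ℝ (E d)) (s : ℝ) : Convex ℝ (Bs p s) := by
  intro x hx y hy a b ha hb hab
  change p (a • x + b • y) ≤ s
  have hx1 : p x ≤ s := hx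
  have hy1 : p y ≤ s := hy
  calc p (a • x + b • y) ≤ p (a • x) + p (b • y) := map_add_le_add p _ _
    _ = a * p x + b * p y := by
        rw [map_smul_eq_mul, map_smul_eq_mul, Real.norm_of_nonneg ha, Real.norm_of_nonneg hb]
    _ ≤ a * s + b * s := add_le_add (mul_le_mul_of_nonneg_left hx1 ha)
        (mul_le_mul_of_nonneg_left hy1 hb)
    _ = s := by rw [← add_mul, hab, one_mul]

theorem sphere_null (hd : 1 ≤ d) {p : Seminorm ℝ (E d)} (hp : Def p) (s : ℝ) :
    volume {y : E d | p y = s} = 0 := by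
  rcases le_or_gt s 0 with hs | hs
  · have h1 : {y : E d | p y = s} ⊆ {0} := by
      intro y hy
      have hy1 : p y = s := hy
      have h2 := apply_nonneg p y
      have h3 : p y = 0 := le_antisymm (by rw [hy1]; exact hs) h2
      exact hp y h3
    have : Nontrivial (E d) := by
      have : Nonempty (Fin d) := ⟨⟨0, hd⟩⟩
      infer_instance
    exact measure_mono_null h1 (measure_singleton 0)
  · have h1 : {y : E d | p y = s} ⊆ frontier (Bs p s) := by
      intro y hy
      have hy1 : p y = s := hy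
      rw [frontier, mem_sdiff]
      refine ⟨subset_closure (show p y ≤ s from hy1.le), ?_⟩
      intro hin
      rw [mem_interior_iff_mem_nhds] at hin
      have hc : Filter.Tendsto (fun e : ℝ => (1 + e) • y) (nhdsWithin 0 (Ioi 0)) (nhds y) := by
        have h2 : Continuous fun e : ℝ => (1 + e) • y := by fun_prop
        have h3 := h2.tendsto 0
        simp only [add_zero, one_smul] at h3
        exact h3.mono_left nhdsWithin_le_nhds
      have h4 := hc.eventually hin
      have h5 : ∀ᶠ e : ℝ in nhdsWithin 0 (Ioi 0), 0 < e := self_mem_nhdsWithin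
      obtain ⟨e, h6, h7⟩ := (h4.and h5).exists
      have h8 : p ((1 + e) • y) ≤ s := h6
      rw [map_smul_eq_mul, Real.norm_of_nonneg (by linarith), hy1] at h8
      nlinarith
    exact measure_mono_null h1 ((Bs_convex p s).addHaar_frontier volume)

/-- the mean minimises the second moment -/
theorem var_le {ν : Measure (E d)} [IsProbabilityMeasure ν] {h : E d → ℝ} (hm : Measurable h)
    {C : ℝ} (hC : ∀ u, |h u| ≤ C) (c : ℝ) :
    ∫⁻ u, ENNReal.ofReal ((h u - ∫ v, h v ∂ν) ^ 2) ∂ν ≤
      ∫⁻ u, ENNReal.ofReal ((h u - c) ^ 2) ∂ν := by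
  have hi : Integrable h ν := Integrable.of_bound hm.aestronglyMeasurable C
    (Filter.Eventually.of_forall fun u => by rw [Real.norm_eq_abs]; exact hC u)
  have hq : ∀ a : ℝ, Integrable (fun u => (h u - a) ^ 2) ν := by
    intro a
    refine Integrable.of_bound ((hm.sub_const a).pow_const 2).aestronglyMeasurable
      ((C + |a|) ^ 2) (Filter.Eventually.of_forall fun u => ?_)
    rw [Real.norm_of_nonneg (sq_nonneg _), ← sq_abs]
    apply pow_le_pow_left₀ (abs_nonneg _)
    exact (abs_sub _ _).trans (add_le_add (hC u) le_rfl)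
  rw [← ofReal_integral_eq_lintegral_ofReal (hq _) (Filter.Eventually.of_forall fun u => sq_nonneg _),
    ← ofReal_integral_eq_lintegral_ofReal (hq _) (Filter.Eventually.of_forall fun u => sq_nonneg _)]
  apply ENNReal.ofReal_le_ofReal
  set m := ∫ v, h v ∂ν with hmdef
  have e : ∫ u, (h u - c) ^ 2 ∂ν = (∫ u, (h u - m) ^ 2 ∂ν) + (m - c) ^ 2 := by
    have e1 : ∀ u, (h u - c) ^ 2 = (h u - m) ^ 2 + (2 * (m - c) * h u + ((m - c) ^ 2 - 2 * (m - c) * m)) := by
      intro u; ring
    simp_rw [e1]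
    have hi2 : Integrable (fun u => 2 * (m - c) * h u + ((m - c) ^ 2 - 2 * (m - c) * m)) ν :=
      (hi.const_mul _).add (integrable_const _)
    rw [integral_add (hq m) hi2,
      integral_add (hi.const_mul _) (integrable_const _), integral_const_mul, integral_const,
      ← hmdef]
    simp only [probReal_univ, one_smul]
    ring
  rw [e]
  nlinarith [sq_nonneg (m - c)]

theorem dir_meas (p : Seminorm ℝ (E d)) : Measurable (dir p) := by
  unfold dir
  exact ((p_cont p).measurable.inv).smul measurable_id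

theorem p_dir_le {p : Seminorm ℝ (E d)} (u : E d) : p (dir p u) ≤ 1 := by
  unfold dir
  rw [map_smul_eq_mul, norm_inv, Real.norm_of_nonneg (apply_nonneg p u)]
  exact inv_mul_le_one_of_le₀ le_rfl (apply_nonneg p u)

/-- average over the directions -/
noncomputable def Pg (p : Seminorm ℝ (E d)) (g : E d → ℝ) (y : E d) : ℝ :=
  ∫ v, g (p y • dir p v) ∂(unif p)

theorem Pg_meas {p : Seminorm ℝ (E d)} (hp : Def p) {g : E d → ℝ} (hg : Continuous g) :
    Measurable (Pg p g) := by
  have := unif_prob hp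
  have h1 : Measurable (Function.uncurry fun y v : E d => g (p y • dir p v)) := by
    apply hg.measurable.comp
    exact (((p_cont p).measurable.comp measurable_fst)).smul ((dir_meas p).comp measurable_snd)
  exact (h1.stronglyMeasurable.integral_prod_right).measurable

theorem angle_le (pol : S_pol) (hd : 1 ≤ d) {p : Seminorm ℝ (E d)} (hp : Def p) {g : E d → ℝ}
    (hg : Continuous g) (s c : ℝ) :
    ∫⁻ y in Bs p s, ENNReal.ofReal ((g y - Pg p g y) ^ 2) ≤
      ∫⁻ y in Bs p s, ENNReal.ofReal ((g y - c) ^ 2) := by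
  have hprob := unif_prob hp
  have hmp := pol d hd p hp
  have hPg := Pg_meas hp hg
  have key : ∀ φ : E d → ℝ≥0∞, Measurable φ → ∫⁻ y in Bs p s, φ y =
      ∫⁻ y in Bs p s, ∫⁻ u, φ (p y • dir p u) ∂(unif p) := by
    intro φ hφ
    have hi := hφ.indicator (Bs_meas p s)
    have e0 := hmp.lintegral_comp hi
    have e1 := lintegral_prod (μ := volume) (ν := unif p)
      (fun q : E d × E d => (Bs p s).indicator φ (p q.1 • dir p q.2))
      (hi.comp hmp.measurable).aemeasurable
    rw [← lintegral_indicator (Bs_meas p s), ← lintegral_indicator (Bs_meas p s), ← e0, e1]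
    apply lintegral_congr
    intro y
    have h1 : ∫⁻ u, (Bs p s).indicator φ (p y • dir p u) ∂(unif p) =
        ∫⁻ u, (if p y ≤ s then φ (p y • dir p u) else 0) ∂(unif p) := by
      apply lintegral_congr_ae
      filter_upwards [unif_ne (p := p) hd] with u hu
      have h2 : p (p y • dir p u) = p y := by
        rw [map_smul_eq_mul, p_dir hp hu, mul_one, Real.norm_of_nonneg (apply_nonneg p y)]
      by_cases h3 : p y ≤ s
      · rw [if_pos h3, indicator_of_mem]
        change p (p y • dir p u) ≤ s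
        rw [h2]; exact h3
      · rw [if_neg h3, indicator_of_notMem]
        intro h4
        have h5 : p (p y • dir p u) ≤ s := h4
        rw [h2] at h5
        exact h3 h5
    change ∫⁻ u, (Bs p s).indicator φ (p y • dir p u) ∂(unif p) = _
    rw [h1]
    by_cases h3 : p y ≤ s
    · rw [indicator_of_mem (show y ∈ Bs p s from h3)]
      simp only [if_pos h3]
    · rw [indicator_of_notMem (show y ∉ Bs p s from h3)]
      simp only [if_neg h3, lintegral_zero]
  have m1 : Measurable fun y => ENNReal.ofReal ((g y - Pg p g y) ^ 2) :=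
    ((hg.measurable.sub hPg).pow_const 2).ennreal_ofReal
  have m2 : Measurable fun y => ENNReal.ofReal ((g y - c) ^ 2) :=
    ((hg.measurable.sub_const c).pow_const 2).ennreal_ofReal
  rw [key _ m1, key _ m2]
  apply lintegral_mono
  intro y
  change ∫⁻ u, ENNReal.ofReal ((g (p y • dir p u) - Pg p g (p y • dir p u)) ^ 2) ∂(unif p) ≤
    ∫⁻ u, ENNReal.ofReal ((g (p y • dir p u) - c) ^ 2) ∂(unif p)
  obtain ⟨C, hC⟩ := (Bs_compact hp (p y)).exists_bound_of_continuousOn hg.continuousOn
  have h1 : ∫⁻ u, ENNReal.ofReal ((g (p y • dir p u) - Pg p g (p y • dir p u)) ^ 2) ∂(unif p) =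
      ∫⁻ u, ENNReal.ofReal ((g (p y • dir p u) - ∫ v, g (p y • dir p v) ∂(unif p)) ^ 2)
        ∂(unif p) := by
    apply lintegral_congr_ae
    filter_upwards [unif_ne (p := p) hd] with u hu
    have h2 : p (p y • dir p u) = p y := by
      rw [map_smul_eq_mul, p_dir hp hu, mul_one, Real.norm_of_nonneg (apply_nonneg p y)]
    unfold Pg
    rw [h2]
  rw [h1]
  apply var_le (C := C)
  · exact hg.measurable.comp ((dir_meas p).const_smul (p y))
  · intro u
    rw [← Real.norm_eq_abs]
    apply hC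
    change p (p y • dir p u) ≤ p y
    rw [map_smul_eq_mul, Real.norm_of_nonneg (apply_nonneg p y)]
    exact mul_le_of_le_one_right (apply_nonneg p y) (p_dir_le u)

theorem unif_integral {p : Seminorm ℝ (E d)} (φ : E d → ℝ) :
    ∫ u, φ u ∂(unif p) = (volume (ball1 p)).toReal⁻¹ * ∫ u in ball1 p, φ u := by
  unfold unif ProbabilityTheory.cond
  rw [integral_smul_measure, ENNReal.toReal_inv, smul_eq_mul]

theorem Bs_smul (p : Seminorm ℝ (E d)) {s : ℝ} (hs : 0 < s) : s • ball1 p = Bs p s := by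
  ext y
  rw [mem_smul_set_iff_inv_smul_mem₀ hs.ne']
  change p (s⁻¹ • y) ≤ 1 ↔ p y ≤ s
  rw [map_smul_eq_mul, norm_inv, Real.norm_of_nonneg hs.le, inv_mul_le_iff₀ hs, mul_one]

/-- the Poincare inequality for a ball of radius `s` -/
theorem poin_s {p : Seminorm ℝ (E d)} (hp : Def p) {K : ℝ} (hP : Poin (unif p) K) {s : ℝ}
    (hs : 0 < s) {g : E d → ℝ} (hg : ContDiff ℝ 1 g) :
    ∃ c : ℝ, ∫ y in Bs p s, (g y - c) ^ 2 ≤ K * s ^ 2 * ∫ y in Bs p s, ‖fderiv ℝ g y‖ ^ 2 := by
  have hprob := unif_prob hp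
  set g' : E d → ℝ := fun u => g (s • u) with hg'
  have hg'c : ContDiff ℝ 1 g' := hg.comp (contDiff_const_smul s)
  have hfd : ∀ u, fderiv ℝ g' u = s • fderiv ℝ g (s • u) := by
    intro u
    have h1 : HasFDerivAt g (fderiv ℝ g (s • u)) (s • u) :=
      ((hg.differentiable (by norm_num)) (s • u)).hasFDerivAt
    have h2 : HasFDerivAt (fun u : E d => s • u) (s • ContinuousLinearMap.id ℝ (E d)) u :=
      (hasFDerivAt_id u).const_smul s
    have h3 := (h1.comp u h2).fderiv
    change fderiv ℝ (g ∘ fun u : E d => s • u) u = _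
    rw [h3]
    ext v
    simp
  have h1 := hP g' hg'c
  set c := ∫ u, g' u ∂(unif p) with hc
  refine ⟨c, ?_⟩
  set b := (volume (ball1 p)).toReal with hb
  have hb0 : 0 < b := ENNReal.toReal_pos (ball1_vol hp).1.ne' (ball1_vol hp).2.ne
  have hcont : Continuous g' := hg'c.continuous
  have hint : ∀ φ : E d → ℝ, Continuous φ → Integrable φ (unif p) := by
    intro φ hφ
    obtain ⟨C, hC⟩ := (ball1_compact hp).exists_bound_of_continuousOn hφ.continuousOn
    refine Integrable.of_bound hφ.aestronglyMeasurable C ?_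
    filter_upwards [unif_ball (p := p)] with u hu
    exact hC u hu
  have e1 : ∫ u, (g' u - c) ^ 2 ∂(unif p) = ∫ u, g' u ^ 2 ∂(unif p) - c ^ 2 := by
    have e2 : ∀ u, (g' u - c) ^ 2 = g' u ^ 2 + (-(2 * c) * g' u + c ^ 2) := by
      intro u; ring
    simp_rw [e2]
    have hi2 : Integrable (fun u => -(2 * c) * g' u + c ^ 2) (unif p) :=
      ((hint _ hcont).const_mul _).add (integrable_const _)
    rw [integral_add (hint _ (by fun_prop)) hi2,
      integral_add ((hint _ hcont).const_mul _) (integrable_const _), integral_const_mul,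
      integral_const, ← hc]
    simp only [probReal_univ, one_smul]
    ring
  rw [← e1] at h1
  have e3 : ∫ u, ‖fderiv ℝ g' u‖ ^ 2 ∂(unif p) = s ^ 2 * ∫ u, ‖fderiv ℝ g (s • u)‖ ^ 2 ∂(unif p) := by
    rw [← integral_const_mul]
    apply integral_congr_ae
    refine Filter.Eventually.of_forall fun u => ?_
    change ‖fderiv ℝ g' u‖ ^ 2 = s ^ 2 * ‖fderiv ℝ g (s • u)‖ ^ 2
    rw [hfd, norm_smul, mul_pow, Real.norm_eq_abs, sq_abs]
  rw [e3, unif_integral, unif_integral] at h1
  have e4 : ∀ φ : E d → ℝ, ∫ y in Bs p s, φ y =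
      s ^ Module.finrank ℝ (E d) * ∫ u in ball1 p, φ (s • u) := by
    intro φ
    have h2 := Measure.setIntegral_comp_smul_of_pos (volume : Measure (E d)) φ (ball1 p) hs
    rw [h2, Bs_smul p hs, smul_eq_mul, ← mul_assoc, mul_inv_cancel₀ (pow_pos hs _).ne', one_mul]
  rw [e4, e4]
  have h3 : (∫ u in ball1 p, (g (s • u) - c) ^ 2) ≤
      K * s ^ 2 * ∫ u in ball1 p, ‖fderiv ℝ g (s • u)‖ ^ 2 := by
    have h4 := mul_le_mul_of_nonneg_left h1 hb0.le
    rw [← hb, ← mul_assoc, mul_inv_cancel₀ hb0.ne', one_mul] at h4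
    calc (∫ u in ball1 p, (g (s • u) - c) ^ 2) ≤ _ := h4
      _ = (b * b⁻¹) * (K * s ^ 2 * ∫ u in ball1 p, ‖fderiv ℝ g (s • u)‖ ^ 2) := by ring
      _ = _ := by rw [mul_inv_cancel₀ hb0.ne', one_mul]
  have h5 := mul_le_mul_of_nonneg_left h3 (pow_pos hs (Module.finrank ℝ (E d))).le
  calc _ ≤ _ := h5
    _ = _ := by ring

/-- the inequality on a ball -/
theorem ball_ineq (pol : S_pol) (hd : 1 ≤ d) {p : Seminorm ℝ (E d)} (hp : Def p) {K a : ℝ}
    (hK : 0 ≤ K) (hP : Poin (unif p) K) {s : ℝ} (hs : 0 < s) (hsa : s ≤ a) {g : E d → ℝ}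
    (hg : ContDiff ℝ 1 g) :
    ∫⁻ y in Bs p s, ENNReal.ofReal ((g y - Pg p g y) ^ 2) ≤
      ENNReal.ofReal (K * a ^ 2) * ∫⁻ y in Bs p s, ENNReal.ofReal (‖fderiv ℝ g y‖ ^ 2) := by
  obtain ⟨c, hc⟩ := poin_s hp hP hs hg
  have hcg : Continuous g := hg.continuous
  have hcf : Continuous (fderiv ℝ g) := hg.continuous_fderiv (by norm_num)
  have i1 : IntegrableOn (fun y => (g y - c) ^ 2) (Bs p s) volume :=
    (by fun_prop : Continuous fun y => (g y - c) ^ 2).continuousOn.integrableOn_compact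
      (Bs_compact hp s)
  have i2 : IntegrableOn (fun y => ‖fderiv ℝ g y‖ ^ 2) (Bs p s) volume :=
    (by fun_prop : Continuous fun y => ‖fderiv ℝ g y‖ ^ 2).continuousOn.integrableOn_compact
      (Bs_compact hp s)
  refine (angle_le pol hd hp hcg s c).trans ?_
  rw [← ofReal_integral_eq_lintegral_ofReal i1 (Filter.Eventually.of_forall fun u => sq_nonneg _),
    ← ofReal_integral_eq_lintegral_ofReal i2 (Filter.Eventually.of_forall fun u => sq_nonneg _),
    ← ENNReal.ofReal_mul (by positivity)]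
  apply ENNReal.ofReal_le_ofReal
  refine hc.trans ?_
  apply mul_le_mul_of_nonneg_right _ (integral_nonneg fun y => sq_nonneg _)
  apply mul_le_mul_of_nonneg_left _ hK
  exact pow_le_pow_left₀ hs.le hsa 2

/-- the inequality on a set which is downward closed -/
theorem down_ineq (pol : S_pol) (hd : 1 ≤ d) {p : Seminorm ℝ (E d)} (hp : Def p) {K a : ℝ}
    (hK : 0 ≤ K) (hP : Poin (unif p) K) {A : Set (E d)} (hA : ∀ y ∈ A, ∀ y', p y' ≤ p y → y' ∈ A)
    (hAa : ∀ y ∈ A, p y ≤ a) {g : E d → ℝ} (hg : ContDiff ℝ 1 g) :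
    ∫⁻ y in A, ENNReal.ofReal ((g y - Pg p g y) ^ 2) ≤
      ENNReal.ofReal (K * a ^ 2) * ∫⁻ y in A, ENNReal.ofReal (‖fderiv ℝ g y‖ ^ 2) := by
  rcases A.eq_empty_or_nonempty with rfl | hne
  · simp
  have hbdd : BddAbove (p '' A) := ⟨a, by rintro _ ⟨y, hy, rfl⟩; exact hAa y hy⟩
  set s := sSup (p '' A) with hs
  have h1 : A ⊆ Bs p s := fun y hy => le_csSup hbdd ⟨y, hy, rfl⟩
  have h2 : ∀ y, p y < s → y ∈ A := by
    intro y hy
    obtain ⟨_, ⟨z, hz, rfl⟩, hzy⟩ := exists_lt_of_lt_csSup (hne.image p) hy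
    exact hA z hz y hzy.le
  have h3 : A =ᵐ[volume] Bs p s := by
    refine (LE.le.eventuallyLE h1).antisymm ?_
    have h4 : volume {y : E d | p y = s} = 0 := sphere_null hd hp s
    have h5 : ∀ᵐ y : E d, y ∉ {y : E d | p y = s} := measure_eq_zero_iff_ae_notMem.1 h4
    filter_upwards [h5] with y hy hy2
    have h6 : p y ≤ s := hy2
    exact h2 y (lt_of_le_of_ne h6 hy)
  rw [setLIntegral_congr h3, setLIntegral_congr h3]
  have hsa : s ≤ a := csSup_le (hne.image p) (by rintro _ ⟨y, hy, rfl⟩; exact hAa y hy)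
  rcases le_or_gt s 0 with h0 | h0
  · have h7 : volume (Bs p s) = 0 := by
      refine measure_mono_null (fun y hy => ?_) (sphere_null hd hp 0)
      have h8 : p y ≤ s := hy
      exact le_antisymm (h8.trans h0) (apply_nonneg p y)
    rw [setLIntegral_measure_zero _ _ h7, setLIntegral_measure_zero _ _ h7, mul_zero]
  · exact ball_ineq pol hd hp hK hP h0 hsa hg

/-- **US-ANG1** -/
theorem main : S_pol → S_ang1 := by
  intro pol d hd p hp K a hK ha hP w hw hw0 hmono hsupp g hg
  change ∫ y, (g y - Pg p g y) ^ 2 * w y ≤ K * a ^ 2 * ∫ y, ‖fderiv ℝ g y‖ ^ 2 * w y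
  have hcg : Continuous g := hg.continuous
  have hcf : Continuous (fderiv ℝ g) := hg.continuous_fderiv (by norm_num)
  have hPg := Pg_meas hp hcg
  have mF : Measurable fun y => ENNReal.ofReal ((g y - Pg p g y) ^ 2) :=
    ((hcg.measurable.sub hPg).pow_const 2).ennreal_ofReal
  have mH : Measurable fun y => ENNReal.ofReal (‖fderiv ℝ g y‖ ^ 2) :=
    ((by fun_prop : Continuous fun y => ‖fderiv ℝ g y‖ ^ 2).measurable).ennreal_ofReal
  have layer : ∀ φ : E d → ℝ, (∀ y, 0 ≤ φ y) → Measurable (fun y => ENNReal.ofReal (φ y)) →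
      ∫⁻ y, ENNReal.ofReal (φ y * w y) =
        ∫⁻ t in Ioi (0 : ℝ), ∫⁻ y in {y | t < w y}, ENNReal.ofReal (φ y) := by
    intro φ hφ0 hφ
    have h1 := lintegral_eq_lintegral_meas_lt
      (volume.withDensity fun y => ENNReal.ofReal (φ y)) (f := w)
      (Filter.Eventually.of_forall hw0) hw.aemeasurable
    rw [lintegral_withDensity_eq_lintegral_mul _ hφ hw.ennreal_ofReal] at h1
    have h2 : ∫⁻ y, ENNReal.ofReal (φ y * w y) =
        ∫⁻ y, ((fun y => ENNReal.ofReal (φ y)) * fun y => ENNReal.ofReal (w y)) y := by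
      apply lintegral_congr
      intro y
      exact ENNReal.ofReal_mul (hφ0 y)
    rw [h2, h1]
    apply lintegral_congr
    intro t
    exact withDensity_apply _ (measurableSet_lt measurable_const hw)
  have hmain : ∫⁻ y, ENNReal.ofReal ((g y - Pg p g y) ^ 2 * w y) ≤
      ENNReal.ofReal (K * a ^ 2) * ∫⁻ y, ENNReal.ofReal (‖fderiv ℝ g y‖ ^ 2 * w y) := by
    rw [layer _ (fun y => sq_nonneg _) mF, layer _ (fun y => sq_nonneg _) mH,
      ← lintegral_const_mul' _ _ ENNReal.ofReal_ne_top]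
    apply setLIntegral_mono' measurableSet_Ioi
    intro t ht
    apply down_ineq pol hd hp hK hP _ _ hg
    · intro y hy y' hyy'
      exact lt_of_lt_of_le hy (hmono y' y hyy')
    · intro y hy
      by_contra hcon
      rw [not_le] at hcon
      have h1 : t < w y := hy
      rw [hsupp y hcon] at h1
      exact absurd h1 (not_lt.2 (le_of_lt ht))
  -- the right hand side is integrable
  have hint : Integrable (fun y => ‖fderiv ℝ g y‖ ^ 2 * w y) := by
    have h1 : (fun y => ‖fderiv ℝ g y‖ ^ 2 * w y) =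
        (Bs p a).indicator (fun y => ‖fderiv ℝ g y‖ ^ 2 * w y) := by
      funext y
      by_cases hy : y ∈ Bs p a
      · rw [indicator_of_mem hy]
      · rw [indicator_of_notMem hy, hsupp y (not_le.1 hy), mul_zero]
    rw [h1, integrable_indicator_iff (Bs_meas p a)]
    obtain ⟨C, hC⟩ := (Bs_compact hp a).exists_bound_of_continuousOn
      (by fun_prop : Continuous fun y => ‖fderiv ℝ g y‖ ^ 2).continuousOn
    refine Measure.integrableOn_of_bounded (M := C * w 0) (Bs_compact hp a).measure_lt_top.ne ?_ ?_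
    · exact ((by fun_prop : Continuous fun y => ‖fderiv ℝ g y‖ ^ 2).measurable.mul
        hw).aestronglyMeasurable
    · rw [ae_restrict_iff' (Bs_meas p a)]
      refine Filter.Eventually.of_forall fun y hy => ?_
      rw [norm_mul, Real.norm_of_nonneg (hw0 y)]
      apply mul_le_mul (hC y hy) (hmono 0 y (by rw [map_zero]; exact apply_nonneg p y)) (hw0 y)
      exact (norm_nonneg _).trans (hC y hy)
  have hnn : ∀ y, 0 ≤ ‖fderiv ℝ g y‖ ^ 2 * w y := fun y => mul_nonneg (sq_nonneg _) (hw0 y)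
  rw [← ofReal_integral_eq_lintegral_ofReal hint (Filter.Eventually.of_forall hnn),
    ← ENNReal.ofReal_mul (by positivity)] at hmain
  have mL : Measurable fun y => (g y - Pg p g y) ^ 2 * w y :=
    ((hcg.measurable.sub hPg).pow_const 2).mul hw
  rw [integral_eq_lintegral_of_nonneg_ae
    (Filter.Eventually.of_forall fun y => mul_nonneg (sq_nonneg _) (hw0 y))
    mL.aestronglyMeasurable]
  refine (ENNReal.toReal_mono ENNReal.ofReal_ne_top hmain).trans ?_
  rw [ENNReal.toReal_ofReal]
  exact mul_nonneg (by positivity) (integral_nonneg hnn)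

end Pool.Agent.W45.US
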